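import Pool.Agent.Helper27.Mess.Defs

/-!
# Basic properties of the differential `DSys.D`
-/

set_option autoImplicit false

namespace Pool.Agent.Helper27.Mess

open Finset
open scoped IsMulCommutative

universe u v w

variable {Γ : Type u} [Group Γ] {C : Type v} [AddCommGroup C] [Module (MonoidAlgebra ℤ Γ) C]

section eps

variable (G : GrRes Γ C)

theorem GrRes.ε_π_ne (i : ℤ) (hi : i ≠ 0) (x : C) : G.ε (G.π i x) = 0 := by
  rw [← G.ε_π, G.π_ne 0 i x (Ne.symm hi), map_zero]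

theorem GrRes.ε_d (x : C) : G.ε (G.d x) = 0 := ((G.exact (G.d x)).2 ⟨x, rfl⟩).2

theorem GrRes.d_d (x : C) : G.d (G.d x) = 0 := ((G.exact (G.d x)).2 ⟨x, rfl⟩).1

/-- The augmentation with values in a commutative ring. -/
noncomputable def GrRes.εO (O : Type w) [CommRing O] : C →+ O := (Int.castAddHom O).comp G.ε

@[simp] theorem GrRes.εO_apply (O : Type w) [CommRing O] (x : C) :
    G.εO O x = ((G.ε x : ℤ) : O) := rfl

theorem GrRes.εO_mem (O : Type w) [CommRing O] : G.εO O ∈ Inv (⊤ : Subgroup Γ) C O := by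
  intro g _ x
  simp [G.ε_act]

end eps

section D

variable {G : GrRes Γ C} {r : ℕ} {a : Fin r → Subgroup.center Γ} (S : DSys G a)
  {O : Type w} [CommRing O]

theorem DSys.D_mem {H : Subgroup Γ} (β : Fin r → O) {f : C →+ O} (hf : f ∈ Inv H C O) :
    S.D β f ∈ Inv H C O := by
  intro g hg x
  rw [S.D_apply, S.D_apply]
  refine Finset.sum_congr rfl fun k _ => ?_
  rw [map_act, hf g hg]

/-- A general regrouping of a double sum over the index set. -/
theorem DSys.sum_sum_eq {M : Type*} [AddCommMonoid M]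
    (F : (Fin r →₀ ℕ) → (Fin r →₀ ℕ) → M)
    (hF : ∀ p q, p ∉ S.I ∨ q ∉ S.I → F p q = 0) :
    ∃ J₀ : Finset (Fin r →₀ ℕ), ∀ J, J₀ ⊆ J → ∑ p ∈ S.I, ∑ q ∈ S.I, F p q =
      ∑ m ∈ J, ∑ p ∈ antidiagonal m, F p.1 p.2 := by
  classical
  refine ⟨(S.I ×ˢ S.I).image (fun p => p.1 + p.2), fun J hJ => ?_⟩
  rw [← Finset.sum_product']
  rw [← Finset.sum_fiberwise_of_maps_to (s := S.I ×ˢ S.I)
    (t := J) (g := fun p => p.1 + p.2)
    (fun p hp => hJ (Finset.mem_image_of_mem _ hp))]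
  refine Finset.sum_congr rfl fun m _ => ?_
  refine Finset.sum_subset ?_ ?_
  · intro p hp
    rw [Finset.mem_filter] at hp
    rw [HasAntidiagonal.mem_antidiagonal]
    exact hp.2
  · intro p hp hp'
    rw [HasAntidiagonal.mem_antidiagonal] at hp
    rw [Finset.mem_filter, Finset.mem_product] at hp'
    apply hF
    by_contra hcon
    push Not at hcon
    exact hp' ⟨hcon, hp⟩

/-- A double sum of `β ^ (p + q) * f (h p (h q x))`. -/
theorem DSys.double_sum (β : Fin r → O) (f : C →+ O) (x : C) :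
    ∑ q ∈ S.I, (∏ j, β j ^ q j) * ∑ p ∈ S.I, (∏ j, β j ^ p j) * f (S.h p (S.h q x)) =
      ∑ j, β j * (f (act (a j : Γ) x) - f x) := by
  classical
  have h1 : ∑ q ∈ S.I, (∏ j, β j ^ q j) * ∑ p ∈ S.I, (∏ j, β j ^ p j) * f (S.h p (S.h q x)) =
      ∑ p ∈ S.I, ∑ q ∈ S.I, (∏ j, β j ^ (p + q) j) * f (S.h p (S.h q x)) := by
    simp only [Finset.mul_sum]
    rw [Finset.sum_comm]
    refine Finset.sum_congr rfl fun p _ => Finset.sum_congr rfl fun q _ => ?_
    simp only [Finsupp.add_apply, pow_add, Finset.prod_mul_distrib]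
    ring
  rw [h1]
  obtain ⟨J₀, hJ₀⟩ := S.sum_sum_eq (fun p q => (∏ j, β j ^ (p + q) j) * f (S.h p (S.h q x)))
    (by
      rintro p q (hp | hq)
      · simp [S.h_out p hp]
      · simp [S.h_out q hq])
  rw [hJ₀ (J₀ ∪ Finset.univ.image (fun j : Fin r => Finsupp.single j 1))
    Finset.subset_union_left]
  have h2 : ∀ m : Fin r →₀ ℕ,
      ∑ p ∈ antidiagonal m, (∏ j, β j ^ (p.1 + p.2) j) * f (S.h p.1 (S.h p.2 x)) =
      ∑ j, (if m = Finsupp.single j 1 then β j * (f (act (a j : Γ) x) - f x) else 0) := by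
    intro m
    have h3 : ∑ p ∈ antidiagonal m, (∏ j, β j ^ (p.1 + p.2) j) * f (S.h p.1 (S.h p.2 x)) =
        (∏ j, β j ^ m j) * f (∑ p ∈ antidiagonal m, S.h p.1 (S.h p.2 x)) := by
      rw [map_sum, Finset.mul_sum]
      refine Finset.sum_congr rfl fun p hp => ?_
      rw [HasAntidiagonal.mem_antidiagonal] at hp
      rw [hp]
    rw [h3, S.rel, map_sum, Finset.mul_sum]
    refine Finset.sum_congr rfl fun j _ => ?_
    split_ifs with hm
    · rw [map_sub]
      congr 1
      rw [hm, Finset.prod_eq_single j]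
      · simp
      · intro b _ hb
        rw [Finsupp.single_apply, if_neg (Ne.symm hb), pow_zero]
      · simp
    · simp
  rw [Finset.sum_congr rfl fun m _ => h2 m, Finset.sum_comm]
  refine Finset.sum_congr rfl fun j _ => ?_
  rw [Finset.sum_ite_eq' , if_pos]
  exact Finset.mem_union_right _ (Finset.mem_image_of_mem _ (Finset.mem_univ j))

theorem DSys.D_D {H : Subgroup Γ} (ha : ∀ j, (a j : Γ) ∈ H) (β : Fin r → O) {f : C →+ O}
    (hf : f ∈ Inv H C O) : S.D β (S.D β f) = 0 := by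
  ext x
  rw [S.D_apply]
  simp only [S.D_apply]
  rw [S.double_sum, AddMonoidHom.zero_apply]
  refine Finset.sum_eq_zero fun j _ => ?_
  rw [hf _ (ha j), sub_self, mul_zero]

/-- Naturality in the ring of coefficients. -/
theorem DSys.D_map {O' : Type*} [CommRing O'] (σ : O →+* O') (β : Fin r → O) (f : C →+ O) :
    S.D (fun j => σ (β j)) (σ.toAddMonoidHom.comp f) = σ.toAddMonoidHom.comp (S.D β f) := by
  ext x
  simp [S.D_apply, map_sum, map_mul, map_prod, map_pow]

theorem DSys.map_mem {O' : Type*} [CommRing O'] (σ : O →+* O') {H : Subgroup Γ} {f : C →+ O}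
    (hf : f ∈ Inv H C O) : σ.toAddMonoidHom.comp f ∈ Inv H C O' := by
  intro g hg x
  simp [hf g hg x]

theorem DSys.ε_h_of_ne (k : Fin r →₀ ℕ) (x : C) : G.ε (S.h k x) = 0 := by
  by_cases hk : k = 0
  · rw [hk, S.h_zero, G.ε_d]
  · have hd : 0 < k.degree := by
      rw [Nat.pos_iff_ne_zero]
      intro h
      exact hk ((Finsupp.degree_eq_zero_iff k).1 h)
    rw [← G.π_sum x, map_sum, map_sum]
    refine Finset.sum_eq_zero fun i _ => ?_
    rw [S.h_deg]
    apply G.ε_π_ne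
    omega

theorem DSys.D_εO (β : Fin r → O) : S.D β (G.εO O) = 0 := by
  ext x
  rw [S.D_apply, AddMonoidHom.zero_apply]
  refine Finset.sum_eq_zero fun k _ => ?_
  rw [G.εO_apply, S.ε_h_of_ne]
  simp

end D

end Pool.Agent.Helper27.Mess
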