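import Pool.Agent.Helper27.Mess.Residual

/-!
# Bounded orders of roots
-/

set_option autoImplicit false

namespace Pool.Agent.Helper27.Mess

open Finset NumberField
open scoped IsMulCommutative

universe u v w

variable {Γ : Type u} [Group Γ] {C : Type v} [AddCommGroup C] [Module (MonoidAlgebra ℤ Γ) C]
  {G : GrRes Γ C} {r : ℕ} {a : Fin r → Subgroup.center Γ}

/-- Evaluation of an integral polynomial at a point of a commutative ring. -/
noncomputable def ev (O : Type w) [CommRing O] (β : Fin r → O) : MvPolynomial (Fin r) ℤ →+* O :=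
  MvPolynomial.eval₂Hom (Int.castRingHom O) β

theorem ev_monomial {O : Type w} [CommRing O] (β : Fin r → O) (k : Fin r →₀ ℕ) :
    ev O β (MvPolynomial.monomial k 1) = ∏ j, β j ^ k j := by
  rw [ev, MvPolynomial.coe_eval₂Hom, MvPolynomial.eval₂_monomial,
    Finsupp.prod_fintype _ _ (fun _ => pow_zero _), map_one, one_mul]

theorem ev_C {O : Type w} [CommRing O] (β : Fin r → O) (n : ℤ) :
    ev O β (MvPolynomial.C n) = (n : O) := by
  rw [ev, MvPolynomial.coe_eval₂Hom, MvPolynomial.eval₂_C]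
  rfl

theorem ev_X_left (p : MvPolynomial (Fin r) ℤ) :
    ev (MvPolynomial (Fin r) ℤ) MvPolynomial.X p = p := by
  have h : Int.castRingHom (MvPolynomial (Fin r) ℤ) = MvPolynomial.C := RingHom.ext_int _ _
  rw [ev, h, MvPolynomial.coe_eval₂Hom, MvPolynomial.eval₂_eta]

theorem ev_eq_aeval {L : Type} [Field L] (β : Fin r → L) (p : MvPolynomial (Fin r) ℤ) :
    ev L β p = MvPolynomial.aeval β p := by
  rw [MvPolynomial.aeval_def, ev, MvPolynomial.coe_eval₂Hom]
  rfl

/-- For every coordinate `j`, an integer `B ≠ 0` and an exponent `N` such that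
`B * (m j) ^ N * ε` is a coboundary at every integral point `m`. -/
theorem exists_coboundary [Module.Finite (MonoidAlgebra ℤ Γ) C]
    [Module.Projective (MonoidAlgebra ℤ Γ) C] (S : DSys G a)
    (hex : ∀ (L : Type) [Field L] [NumberField L] (β : Fin r → L), β ≠ 0 →
      ∀ f ∈ Inv (⊤ : Subgroup Γ) C L, S.D β f = 0 →
        ∃ g ∈ Inv (⊤ : Subgroup Γ) C L, S.D β g = f) (j : Fin r) :
    ∃ (B : ℤ) (N : ℕ), B ≠ 0 ∧ ∀ m : Fin r → ℤ, ∃ ω ∈ Inv (⊤ : Subgroup Γ) C ℤ,
      S.D m ω = (B * m j ^ N) • G.ε := by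
  classical
  obtain ⟨R, c, A, hA1, hA2⟩ := exists_basis (Γ := Γ) (C := C)
  let M : Matrix (Fin R) (Fin R) (MvPolynomial (Fin r) ℤ) := Matrix.of fun i l =>
    ∑ k ∈ S.I, MvPolynomial.monomial k 1 * MvPolynomial.C (A (S.h k (c i)) l)
  have hMi : ∀ i l, M i l =
      ∑ k ∈ S.I, MvPolynomial.monomial k 1 * MvPolynomial.C (A (S.h k (c i)) l) := fun _ _ => rfl
  -- the matrix computes the differential
  have hM : ∀ (O : Type) [CommRing O] (β : Fin r → O) (f : C →+ O)
      (_ : f ∈ Inv (⊤ : Subgroup Γ) C O) (i : Fin R),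
      S.D β f (c i) = (M.map (ev O β)).mulVec (fun l => f (c l)) i := by
    intro O _ β f hf i
    rw [S.D_apply, Matrix.mulVec, dotProduct]
    have h1 : ∀ l, (M.map (ev O β)) i l =
        ∑ k ∈ S.I, (∏ j, β j ^ k j) * ((A (S.h k (c i)) l : ℤ) : O) := by
      intro l
      rw [Matrix.map_apply, hMi, map_sum]
      refine Finset.sum_congr rfl fun k _ => ?_
      rw [map_mul, ev_monomial, ev_C]
    simp only [h1, Finset.sum_mul]
    rw [Finset.sum_comm]
    refine Finset.sum_congr rfl fun k _ => ?_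
    rw [hA1 O f hf (S.h k (c i)), Finset.mul_sum]
    refine Finset.sum_congr rfl fun l _ => ?_
    ring
  have hMX : M.map (ev _ (MvPolynomial.X : Fin r → MvPolynomial (Fin r) ℤ)) = M := by
    ext i l : 2
    rw [Matrix.map_apply, ev_X_left]
  -- the square of the matrix is zero
  have hMM : M * M = 0 := by
    ext i l : 2
    obtain ⟨f, hf, hfv⟩ := hA2 (MvPolynomial (Fin r) ℤ) (Pi.single l 1)
    have h1 := S.D_D (fun _ => Subgroup.mem_top _) (MvPolynomial.X : Fin r → _) hf
    have h2 := hM _ MvPolynomial.X _ (S.D_mem MvPolynomial.X hf) i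
    rw [h1, hMX] at h2
    have h3 : (fun l => S.D MvPolynomial.X f (c l)) = M.mulVec (Pi.single l 1) := by
      funext i'
      rw [hM _ MvPolynomial.X f hf i', hMX]
      congr 1
      funext l'
      rw [hfv]
    rw [h3, Matrix.mulVec_mulVec] at h2
    rw [AddMonoidHom.zero_apply] at h2
    rw [Matrix.zero_apply, h2]
    simp
  have hεv : M.mulVec (fun i => G.εO (MvPolynomial (Fin r) ℤ) (c i)) = 0 := by
    funext i
    have h1 := hM _ MvPolynomial.X _ (G.εO_mem (MvPolynomial (Fin r) ℤ)) i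
    rw [S.D_εO, hMX] at h1
    rw [← h1]
    rfl
  obtain ⟨B, N, w, hB, hw⟩ := comm_alg r R M hMM j (by
    intro L _ _ β hβj v hv
    have hmap : M.map (MvPolynomial.aeval β) = M.map (ev L β) := by
      ext i l : 2
      rw [Matrix.map_apply, Matrix.map_apply, ev_eq_aeval]
    rw [hmap] at hv ⊢
    obtain ⟨f, hf, hfv⟩ := hA2 L v
    have h1 : S.D β f = 0 := by
      refine Inv_ext_of_basis (hA1 L) (S.D_mem β hf) (Submodule.zero_mem _) fun i => ?_
      rw [hM L β f hf i]
      have : (fun l => f (c l)) = v := funext hfv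
      rw [this, hv]
      rfl
    obtain ⟨g, hg, hgf⟩ := hex L β (fun h => hβj (by rw [h]; rfl)) f hf h1
    refine ⟨fun l => g (c l), ?_⟩
    funext i
    rw [← hM L β g hg i, hgf, hfv]) _ hεv
  refine ⟨B, N, hB, fun m => ?_⟩
  obtain ⟨ω, hω, hωv⟩ := hA2 (MvPolynomial (Fin r) ℤ) w
  have h1 : S.D MvPolynomial.X ω =
      (MvPolynomial.C B * MvPolynomial.X j ^ N) • G.εO (MvPolynomial (Fin r) ℤ) := by
    refine Inv_ext_of_basis (hA1 _) (S.D_mem _ hω) (Submodule.smul_mem _ _ (G.εO_mem _))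
      fun i => ?_
    rw [hM _ MvPolynomial.X ω hω i, hMX]
    have : (fun l => ω (c l)) = w := funext hωv
    rw [this, hw]
    rfl
  let σ : MvPolynomial (Fin r) ℤ →+* ℤ := MvPolynomial.eval m
  refine ⟨σ.toAddMonoidHom.comp ω, DSys.map_mem σ hω, ?_⟩
  have h2 := S.D_map σ MvPolynomial.X ω
  have h3 : (fun j => σ (MvPolynomial.X j)) = m := by
    funext j
    simp [σ]
  rw [h3, h1] at h2
  rw [h2]
  refine AddMonoidHom.ext fun x => ?_
  simp [σ]

end Pool.Agent.Helper27.Mess
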