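import Mathlib

/-!
# Definitions for the problem MP_dbae29_al (centres of groups of type FP)

* `FPResolution Γ` : a finite resolution of the trivial module `ℤ` by finitely generated
  projective modules over the integral group ring of `Γ`;
* `GrRes Γ C` : the same data, packed into one graded module `C`;
* `DSys G a` : a system of higher homotopies `h k` (`k` a multi-index), with
  `∑_{p + q = k} h p ∘ h q = a j - 1` if `k` is the `j`-th unit vector and `0` for all other `k`;
* `Inv H C O` : additive maps from `C` to a commutative ring `O` invariant under a subgroup `H`;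
* `DSys.D` : the differential on additive maps `C → O` given by a point `β` of `O^r`.
-/

set_option autoImplicit false

namespace Pool.Agent.Helper27.Mess

open Finset
open scoped IsMulCommutative

universe u v w

/-- A finite resolution of the trivial module `ℤ` by finitely generated projective modules over
the integral group ring of `Γ`:
`0 → P length → ... → P 1 → P 0 → ℤ → 0`. -/
structure FPResolution (Γ : Type u) [Group Γ] where
  /-- the length of the resolution -/
  length : ℕ
  /-- the modules -/
  P : ℕ → Type v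
  [addCommGroup : ∀ i, AddCommGroup (P i)]
  [module : ∀ i, Module (MonoidAlgebra ℤ Γ) (P i)]
  finite : ∀ i, Module.Finite (MonoidAlgebra ℤ Γ) (P i)
  projective : ∀ i, Module.Projective (MonoidAlgebra ℤ Γ) (P i)
  eq_zero : ∀ i, length < i → ∀ x : P i, x = 0
  /-- the boundary maps -/
  d : ∀ i, P (i + 1) →ₗ[MonoidAlgebra ℤ Γ] P i
  /-- the augmentation -/
  ε : P 0 →+ ℤ
  /-- the augmentation is a map to the module `ℤ` on which `Γ` acts trivially -/
  ε_of_smul : ∀ (g : Γ) (x : P 0), ε (MonoidAlgebra.of ℤ Γ g • x) = ε x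
  ε_surjective : Function.Surjective ε
  exact_zero : ∀ x : P 0, ε x = 0 ↔ ∃ y, d 0 y = x
  exact_succ : ∀ (i : ℕ) (x : P (i + 1)), d i x = 0 ↔ ∃ y, d (i + 1) y = x

/-- A group is of type FP (over the integers) if the trivial module has a finite resolution by
finitely generated projective modules over the integral group ring. -/
def IsTypeFP (Γ : Type u) [Group Γ] : Prop := Nonempty (FPResolution.{u, u} Γ)

section act

variable {Γ : Type u} [Group Γ] {C : Type v} [AddCommGroup C] [Module (MonoidAlgebra ℤ Γ) C]

/-- The action of a group element on a module over the integral group ring. -/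
noncomputable def act (g : Γ) (x : C) : C := MonoidAlgebra.of ℤ Γ g • x

theorem act_def (g : Γ) (x : C) : act g x = MonoidAlgebra.of ℤ Γ g • x := rfl

@[simp] theorem act_one (x : C) : act (1 : Γ) x = x := by rw [act_def, map_one, one_smul]

theorem act_mul (g k : Γ) (x : C) : act (g * k) x = act g (act k x) := by
  simp only [act_def, map_mul, mul_smul]

@[simp] theorem act_zero (g : Γ) : act g (0 : C) = 0 := by simp [act_def]

theorem act_add (g : Γ) (x y : C) : act g (x + y) = act g x + act g y := by
  simp [act_def, smul_add]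

theorem act_sub (g : Γ) (x y : C) : act g (x - y) = act g x - act g y := by
  simp [act_def, smul_sub]

theorem act_neg (g : Γ) (x : C) : act g (-x) = -act g x := by
  simp [act_def, smul_neg]

theorem act_sum {ι : Type*} (g : Γ) (s : Finset ι) (f : ι → C) :
    act g (∑ i ∈ s, f i) = ∑ i ∈ s, act g (f i) := by
  simp [act_def, Finset.smul_sum]

theorem act_zsmul (g : Γ) (n : ℤ) (x : C) : act g (n • x) = n • act g x := by
  simp only [act_def]
  exact smul_comm _ _ _

theorem map_act {C' : Type*} [AddCommGroup C'] [Module (MonoidAlgebra ℤ Γ) C']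
    (f : C →ₗ[MonoidAlgebra ℤ Γ] C') (g : Γ) (x : C) : f (act g x) = act g (f x) := by
  simp [act_def]

@[simp] theorem act_inv_act (g : Γ) (x : C) : act g⁻¹ (act g x) = x := by
  rw [← act_mul]; simp

@[simp] theorem act_act_inv (g : Γ) (x : C) : act g (act g⁻¹ x) = x := by
  rw [← act_mul]; simp

theorem act_comm_of_center (a : Subgroup.center Γ) (g : Γ) (x : C) :
    act (a : Γ) (act g x) = act g (act (a : Γ) x) := by
  rw [← act_mul, ← act_mul]
  congr 1
  exact (Subgroup.mem_center_iff.1 a.2 g).symm

/-- The action of an element of the group ring in terms of the action of group elements. -/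
theorem smul_eq_sum (s : MonoidAlgebra ℤ Γ) (x : C) :
    s • x = ∑ g ∈ s.coeff.support, s.coeff g • act g x := by
  conv_lhs => rw [← MonoidAlgebra.sum_coeff_single s, Finsupp.sum, Finset.sum_smul]
  refine Finset.sum_congr rfl fun g _ => ?_
  rw [act_def, ← smul_assoc]
  congr 1
  simp

end act

/-- A finite resolution of the trivial module, packed into a single module `C` graded by the
commuting projections `π i`, `0 ≤ i ≤ n`. -/
structure GrRes (Γ : Type u) [Group Γ] (C : Type v) [AddCommGroup C]
    [Module (MonoidAlgebra ℤ Γ) C] where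
  /-- the length -/
  n : ℕ
  /-- the projection to the part of degree `i` -/
  π : ℤ → (C →ₗ[MonoidAlgebra ℤ Γ] C)
  π_self : ∀ i x, π i (π i x) = π i x
  π_ne : ∀ i j x, i ≠ j → π i (π j x) = 0
  π_neg : ∀ i x, i < 0 → π i x = 0
  π_big : ∀ i x, (n : ℤ) < i → π i x = 0
  π_sum : ∀ x, ∑ i ∈ range (n + 1), π (i : ℤ) x = x
  /-- the differential, of degree `-1` -/
  d : C →ₗ[MonoidAlgebra ℤ Γ] C
  d_π : ∀ i x, d (π i x) = π (i - 1) (d x)
  /-- the augmentation, extended by zero in positive degrees -/
  ε : C →+ ℤ
  ε_act : ∀ (g : Γ) x, ε (act g x) = ε x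
  ε_π : ∀ x, ε (π 0 x) = ε x
  ε_surj : Function.Surjective ε
  exact : ∀ x, (d x = 0 ∧ ε x = 0) ↔ ∃ y, d y = x

variable {Γ : Type u} [Group Γ] {C : Type v} [AddCommGroup C] [Module (MonoidAlgebra ℤ Γ) C]

/-- A system of higher homotopies for the central elements `a j`. -/
structure DSys (G : GrRes Γ C) {r : ℕ} (a : Fin r → Subgroup.center Γ) where
  /-- the higher homotopies -/
  h : (Fin r →₀ ℕ) → (C →ₗ[MonoidAlgebra ℤ Γ] C)
  /-- a finite set of indices outside of which the homotopies vanish -/
  I : Finset (Fin r →₀ ℕ)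
  h_out : ∀ k, k ∉ I → h k = 0
  h_zero : h 0 = G.d
  h_deg : ∀ k i x, h k (G.π i x) = G.π (i + 2 * (k.degree : ℤ) - 1) (h k x)
  rel : ∀ k x, ∑ p ∈ antidiagonal k, h p.1 (h p.2 x) =
    ∑ j, if k = Finsupp.single j 1 then act (a j : Γ) x - x else 0

/-- Additive maps `C → O` invariant under the subgroup `H`. -/
def Inv (H : Subgroup Γ) (C : Type v) [AddCommGroup C] [Module (MonoidAlgebra ℤ Γ) C]
    (O : Type w) [CommRing O] : Submodule O (C →+ O) where
  carrier := {f | ∀ g ∈ H, ∀ x, f (act g x) = f x}
  add_mem' := fun {f f'} hf hf' g hg x => by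
    simp only [AddMonoidHom.add_apply, hf g hg x, hf' g hg x]
  zero_mem' := fun g _ x => by simp
  smul_mem' := fun c f hf g hg x => by
    simp only [AddMonoidHom.smul_apply, hf g hg x]

theorem mem_Inv {H : Subgroup Γ} {O : Type w} [CommRing O] {f : C →+ O} :
    f ∈ Inv H C O ↔ ∀ g ∈ H, ∀ x, f (act g x) = f x := Iff.rfl

theorem Inv_mono {H K : Subgroup Γ} (hHK : H ≤ K) {O : Type w} [CommRing O] :
    Inv K C O ≤ Inv H C O := fun _ hf g hg x => hf g (hHK hg) x

section D

variable {G : GrRes Γ C} {r : ℕ} {a : Fin r → Subgroup.center Γ} (S : DSys G a)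
  {O : Type w} [CommRing O]

/-- The differential on additive maps `C → O` given by the point `β` of `O^r`. -/
noncomputable def DSys.D (β : Fin r → O) : (C →+ O) →ₗ[O] (C →+ O) where
  toFun f := ∑ k ∈ S.I, (∏ j, β j ^ k j) • f.comp (S.h k).toAddMonoidHom
  map_add' f g := by
    rw [← Finset.sum_add_distrib]
    refine Finset.sum_congr rfl fun k _ => ?_
    ext x
    simp [mul_add]
  map_smul' c f := by
    simp only [RingHom.id_apply, Finset.smul_sum]
    refine Finset.sum_congr rfl fun k _ => ?_
    ext x
    simp only [AddMonoidHom.smul_apply, AddMonoidHom.comp_apply, smul_eq_mul]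
    ring

theorem DSys.D_apply (β : Fin r → O) (f : C →+ O) (x : C) :
    S.D β f x = ∑ k ∈ S.I, (∏ j, β j ^ k j) * f (S.h k x) := by
  simp [DSys.D, AddMonoidHom.finsetSum_apply]

end D

end Pool.Agent.Helper27.Mess
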