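import Pool.Agent.Helper27.Mess.Bound

/-!
# The centre is finitely generated
-/

set_option autoImplicit false

namespace Pool.Agent.Helper27.Mess

open Finset
open scoped IsMulCommutative

universe u v w

variable {Γ : Type u} [Group Γ] {r : ℕ}

/-- The central element with exponents `m`. -/
noncomputable def pr (a : Fin r → Subgroup.center Γ) (m : Fin r → ℤ) : Subgroup.center Γ :=
  ∏ j, a j ^ m j

theorem pr_add (a : Fin r → Subgroup.center Γ) (m m' : Fin r → ℤ) :
    pr a (m + m') = pr a m * pr a m' := by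
  simp [pr, zpow_add, Finset.prod_mul_distrib]

theorem pr_neg (a : Fin r → Subgroup.center Γ) (m : Fin r → ℤ) :
    pr a (-m) = (pr a m)⁻¹ := by
  simp [pr, zpow_neg, Finset.prod_inv_distrib]

theorem pr_zero (a : Fin r → Subgroup.center Γ) : pr a 0 = 1 := by
  simp [pr]

theorem pr_nsmul (a : Fin r → Subgroup.center Γ) (n : ℕ) (m : Fin r → ℤ) :
    pr a (n • m) = (pr a m) ^ n := by
  simp only [pr, ← Finset.prod_pow]
  refine Finset.prod_congr rfl fun j _ => ?_
  rw [Pi.smul_apply, nsmul_eq_mul, mul_comm, zpow_mul, zpow_natCast]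

theorem center_commute (z : Subgroup.center Γ) (t : Γ) : Commute (z : Γ) t :=
  (Subgroup.mem_center_iff.1 z.2 t).symm

/-- If the orders of roots are bounded in the sense of divisibility by `B j * m j ^ N j`, then
they divide `∏ |B j|`. -/
theorem root_order_dvd (htf : ∀ (t : Γ) (q : ℕ), 0 < q → t ^ q = 1 → t = 1)
    (a : Fin r → Subgroup.center Γ) (B : Fin r → ℤ) (N : Fin r → ℕ)
    (hdiv : ∀ (t : Γ) (q : ℕ) (m : Fin r → ℤ), 0 < q → t ^ q = (pr a m : Γ) → t ≠ 1 →
      ∀ j, (q : ℤ) ∣ B j * m j ^ N j)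
    (t : Γ) (q : ℕ) (hq : 0 < q) (m : Fin r → ℤ) (htq : t ^ q = (pr a m : Γ))
    (hmin : ∀ q' : ℕ, 0 < q' → q' < q → ∀ m' : Fin r → ℤ, t ^ q' ≠ (pr a m' : Γ)) :
    q ∣ ∏ j, (B j).natAbs := by
  by_cases ht : t = 1
  · -- `q = 1`
    by_contra hcon
    have hq1 : 1 < q := by
      rcases Nat.lt_or_ge 1 q with h | h
      · exact h
      · exfalso
        apply hcon
        have : q = 1 := by omega
        rw [this]
        exact one_dvd _
    refine hmin 1 one_pos hq1 0 ?_
    rw [ht, pr_zero]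
    simp
  rw [Nat.dvd_iff_prime_pow_dvd_dvd]
  intro p k hp hpk
  rcases Nat.eq_zero_or_pos k with hk | hk
  · rw [hk, pow_zero]; exact one_dvd _
  -- some exponent is prime to `p`
  have hpq : p ∣ q := (dvd_pow_self p hk.ne').trans hpk
  obtain ⟨j, hj⟩ : ∃ j, ¬ (p : ℤ) ∣ m j := by
    by_contra hcon
    push Not at hcon
    choose m' hm' using hcon
    obtain ⟨q', hq'⟩ := hpq
    have hq'0 : 0 < q' := by
      rcases Nat.eq_zero_or_pos q' with h | h
      · rw [h, mul_zero] at hq'; omega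
      · exact h
    have hlt : q' < q := by
      rw [hq']
      have := hp.two_le
      nlinarith
    refine hmin q' hq'0 hlt m' ?_
    have h1 : (t ^ q' * ((pr a m' : Subgroup.center Γ) : Γ)⁻¹) ^ p = 1 := by
      have hc : Commute (t ^ q') ((pr a m' : Subgroup.center Γ) : Γ)⁻¹ :=
        ((center_commute (pr a m') (t ^ q')).symm).inv_right
      rw [hc.mul_pow, ← pow_mul, mul_comm q' p, ← hq', htq]
      have h2 : m = p • m' := by
        funext j
        rw [Pi.smul_apply, nsmul_eq_mul, hm']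
      rw [h2, pr_nsmul]
      simp
    have h3 := htf _ p hp.pos h1
    exact mul_inv_eq_one.1 h3
  have h4 : (p : ℤ) ^ k ∣ B j * m j ^ N j := by
    refine dvd_trans ?_ (hdiv t q m hq htq ht j)
    exact_mod_cast hpk
  have h5 : IsCoprime ((p : ℤ) ^ k) (m j ^ N j) := by
    apply IsCoprime.pow
    rw [Int.isCoprime_iff_gcd_eq_one]
    rcases (Nat.dvd_prime hp).1 (by
      have := Int.gcd_dvd_left (a := (p : ℤ)) (b := m j)
      exact_mod_cast this : Int.gcd (p : ℤ) (m j) ∣ p) with h | h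
    · exact h
    · exfalso
      apply hj
      have := Int.gcd_dvd_right (a := (p : ℤ)) (b := m j)
      rw [h] at this
      exact this
  have h6 : (p : ℤ) ^ k ∣ B j := h5.dvd_of_dvd_mul_right h4
  have h7 : p ^ k ∣ (B j).natAbs := by
    have := Int.natAbs_dvd_natAbs.2 h6
    simpa [Int.natAbs_pow] using this
  exact h7.trans (Finset.dvd_prod_of_mem _ (Finset.mem_univ j))

/-- Group theory: the conclusion from the bounded orders. -/
theorem center_fg_of_bound (htf : ∀ (t : Γ) (q : ℕ), 0 < q → t ^ q = 1 → t = 1)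
    (a : Fin r → Subgroup.center Γ) (ha : ∀ m : Fin r → ℤ, ∏ j, a j ^ m j = 1 → m = 0)
    (hmax : ∀ t : Subgroup.center Γ, ∃ q : ℕ, 0 < q ∧ ∃ m : Fin r → ℤ, t ^ q = pr a m)
    (B : ℕ) (hB : 0 < B)
    (hbound : ∀ (t : Γ) (q : ℕ) (_ : 0 < q) (m : Fin r → ℤ), t ^ q = (pr a m : Γ) →
      (∀ q' : ℕ, 0 < q' → q' < q → ∀ m' : Fin r → ℤ, t ^ q' ≠ (pr a m' : Γ)) → q ∣ B) :
    (Subgroup.center Γ).FG ∧
      ∃ B : ℕ, 0 < B ∧ ∀ t : Γ, (∃ q : ℕ, 0 < q ∧ t ^ q ∈ Subgroup.center Γ) →
        t ^ B ∈ Subgroup.center Γ := by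
  classical
  have hinj : ∀ m m' : Fin r → ℤ, pr a m = pr a m' → m = m' := by
    intro m m' h
    have h1 : pr a (m + -m') = 1 := by
      rw [pr_add, pr_neg, h, mul_inv_cancel]
    have h2 := ha _ h1
    rw [← sub_eq_add_neg] at h2
    exact sub_eq_zero.1 h2
  -- every element with a power in the group generated by `a` has its `B`-th power there
  have hpow : ∀ t : Γ, (∃ q : ℕ, 0 < q ∧ ∃ m : Fin r → ℤ, t ^ q = (pr a m : Γ)) →
      ∃ m : Fin r → ℤ, t ^ B = (pr a m : Γ) := by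
    intro t ht
    obtain ⟨hq, m, hm⟩ := Nat.find_spec ht
    have hdvd : Nat.find ht ∣ B := by
      refine hbound t _ hq m hm ?_
      intro q' hq' hlt m' hm'
      exact Nat.find_min ht hlt ⟨hq', m', hm'⟩
    obtain ⟨k, hk⟩ := hdvd
    refine ⟨k • m, ?_⟩
    rw [hk, pow_mul, hm, pr_nsmul]
    simp
  have hpowc : ∀ t : Subgroup.center Γ, ∃ m : Fin r → ℤ, t ^ B = pr a m := by
    intro t
    obtain ⟨q, hq, m, hm⟩ := hmax t
    obtain ⟨m', hm'⟩ := hpow t ⟨q, hq, m, by rw [← hm]; simp⟩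
    refine ⟨m', Subtype.ext ?_⟩
    rw [← hm']
    simp
  refine ⟨?_, B, hB, ?_⟩
  · choose φ hφ using hpowc
    let Φ : Additive (Subgroup.center Γ) →+ (Fin r → ℤ) :=
      { toFun := fun t => φ (Additive.toMul t)
        map_zero' := by
          apply hinj
          rw [← hφ, pr_zero]
          simp
        map_add' := by
          intro s t
          apply hinj
          rw [← hφ, pr_add, ← hφ, ← hφ, toMul_add, mul_pow] }
    have hΦ : Function.Injective Φ := by
      rw [injective_iff_map_eq_zero]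
      intro t ht
      have h1 : φ (Additive.toMul t) = 0 := ht
      have h2 := hφ (Additive.toMul t)
      rw [h1, pr_zero] at h2
      have h3 : ((Additive.toMul t : Subgroup.center Γ) : Γ) ^ B = 1 := by
        have := congrArg Subtype.val h2
        simpa using this
      have h4 := htf _ B hB h3
      have h5 : Additive.toMul t = 1 := Subtype.ext h4
      exact h5
    have hfin : Module.Finite ℤ (Additive (Subgroup.center Γ)) :=
      Module.Finite.of_injective Φ.toIntLinearMap hΦ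
    rw [← Group.fg_iff_subgroup_fg, GroupFG.iff_add_fg, ← Module.Finite.iff_addGroup_fg]
    exact hfin
  · rintro t ⟨q, hq, htq⟩
    obtain ⟨q', hq', m, hm⟩ := hmax ⟨t ^ q, htq⟩
    obtain ⟨m', hm'⟩ := hpow t ⟨q * q', Nat.mul_pos hq hq', m, by
      rw [pow_mul, ← hm]
      simp⟩
    rw [hm']
    exact (pr a m').2

/-- A maximal independent family of central elements. -/
theorem exists_max_family {C : Type v} [AddCommGroup C] [Module (MonoidAlgebra ℤ Γ) C]
    [Module.Projective (MonoidAlgebra ℤ Γ) C] (G : GrRes Γ C) :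
    ∃ (r : ℕ) (a : Fin r → Subgroup.center Γ),
      (∀ m : Fin r → ℤ, ∏ j, a j ^ m j = 1 → m = 0) ∧
      ∀ t : Subgroup.center Γ, ∃ q : ℕ, 0 < q ∧ ∃ m : Fin r → ℤ, t ^ q = pr a m := by
  classical
  let P : ℕ → Prop := fun r => ∃ a : Fin r → Subgroup.center Γ,
    ∀ m : Fin r → ℤ, ∏ j, a j ^ m j = 1 → m = 0
  have hP0 : P 0 := ⟨Fin.elim0, fun m _ => funext fun j => Fin.elim0 j⟩
  have hbd : ∀ r, P r → r ≤ G.n := fun r ⟨a, ha⟩ => rank_le G a ha
  let r := Nat.findGreatest P G.n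
  have hPr : P r := Nat.findGreatest_spec (Nat.zero_le _) hP0
  obtain ⟨a, ha⟩ := hPr
  refine ⟨r, a, ha, fun t => ?_⟩
  have hnot : ¬ P (r + 1) := by
    intro h
    have h1 := hbd _ h
    exact Nat.findGreatest_is_greatest (Nat.lt_succ_self r) h1 h
  have h2 : ∃ m : Fin (r + 1) → ℤ,
      ∏ j, (Fin.snoc a t : Fin (r + 1) → Subgroup.center Γ) j ^ m j = 1 ∧ m ≠ 0 := by
    by_contra hcon
    push Not at hcon
    exact hnot ⟨Fin.snoc a t, hcon⟩
  obtain ⟨m, hm1, hm0⟩ := h2
  rw [Fin.prod_univ_castSucc] at hm1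
  simp only [Fin.snoc_castSucc, Fin.snoc_last] at hm1
  have hlast : m (Fin.last r) ≠ 0 := by
    intro h
    rw [h, zpow_zero, mul_one] at hm1
    have h3 := ha (fun j => m (Fin.castSucc j)) hm1
    apply hm0
    funext j
    refine Fin.lastCases h (fun i => congrFun h3 i) j
  have h4 : t ^ m (Fin.last r) = pr a (-fun j => m (Fin.castSucc j)) := by
    rw [pr_neg]
    exact (inv_eq_of_mul_eq_one_right hm1).symm
  rcases lt_or_gt_of_ne hlast with h | h
  · refine ⟨(-m (Fin.last r)).toNat, by omega, fun j => m (Fin.castSucc j), ?_⟩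
    rw [← zpow_natCast, Int.toNat_of_nonneg (by omega), zpow_neg, h4, pr_neg, inv_inv]
  · refine ⟨(m (Fin.last r)).toNat, by omega, -fun j => m (Fin.castSucc j), ?_⟩
    rw [← zpow_natCast, Int.toNat_of_nonneg (by omega), h4]

/-- The main theorem. -/
theorem center_fg_of_residual (Γ : Type u) [Group Γ] (hΓ : IsTypeFP Γ)
    (hres : ∀ z ∈ Subgroup.center Γ, z ≠ 1 → ∃ N : Subgroup Γ, N.FiniteIndex ∧ z ∉ N) :
    (Subgroup.center Γ).FG ∧
      ∃ B : ℕ, 0 < B ∧ ∀ t : Γ, (∃ q : ℕ, 0 < q ∧ t ^ q ∈ Subgroup.center Γ) →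
        t ^ B ∈ Subgroup.center Γ := by
  classical
  obtain ⟨R⟩ := hΓ
  obtain ⟨C, _, _, hfin, hproj, ⟨G⟩⟩ := exists_grRes Γ R
  have htf : ∀ (t : Γ) (q : ℕ), 0 < q → t ^ q = 1 → t = 1 := fun t q hq ht =>
    torsion_free G t q hq ht
  obtain ⟨r, a, ha, hmax⟩ := exists_max_family G
  obtain ⟨S⟩ := exists_dSys G a
  have hex := fun (L : Type) (_ : Field L) (_ : NumberField L) (β : Fin r → L) (hβ : β ≠ 0) =>
    exact_of_residual S ha (fun z hz => hres z z.2 (fun h => hz (Subtype.ext h))) L β hβ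
  choose B N hB hω using fun j => exists_coboundary S hex j
  refine center_fg_of_bound htf a ha hmax (∏ j, (B j).natAbs)
    (Finset.prod_pos fun j _ => Int.natAbs_pos.2 (hB j)) ?_
  intro t q hq m htq hmin
  refine root_order_dvd htf a B N ?_ t q hq m htq hmin
  intro t q m hq htq ht j
  obtain ⟨ω, hωinv, hDω⟩ := hω j m
  exact root_lemma S t (fun k hk h => ht (htf t k hk h)) q hq m htq _ ω hωinv hDω

end Pool.Agent.Helper27.Mess
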