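import Pool.Agent.Helper27.Mess.Basic
import Pool.Agent.Helper4.Mess.Packing
import Pool.Agent.Helper4.Mess.Divisibility
import Pool.Agent.Helper10.Mess.Root
import Pool.Agent.Helper21.Mess.CommAlg
import Pool.Agent.Helper26.Mess.TorsionFree
import Pool.Agent.Helper26.Mess.Transfer
import Pool.Agent.Helper47.Mess.RankLe
import Pool.Agent.Helper59.Mess.Dvd
import Pool.Agent.Helper75.Mess.Scale
import Pool.Agent.Helper81.Mess.ExistsBasis
import Pool.Agent.Helper87.Mess.ExistsDSys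

/-!
# Exactness at all nonzero points, from finite quotients
-/

set_option autoImplicit false

namespace Pool.Agent.Helper27.Mess

open Finset NumberField
open scoped IsMulCommutative

universe u v w

variable {Γ : Type u} [Group Γ] {C : Type v} [AddCommGroup C] [Module (MonoidAlgebra ℤ Γ) C]

/-- A homomorphism to a cyclic group, defined on a subgroup of finite index containing the
centre, which does not kill a given central element. -/
theorem exists_character (z : Subgroup.center Γ)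
    (N : Subgroup Γ) (hN : N.FiniteIndex) (hz : (z : Γ) ∉ N) :
    ∃ (H : Subgroup Γ) (_ : H.FiniteIndex) (hH : Subgroup.center Γ ≤ H) (q : ℕ) (_ : 0 < q)
      (χ : H →* Multiplicative (ZMod q)), χ ⟨(z : Γ), hH z.2⟩ ≠ 1 := by
  classical
  have hNc : N.normalCore.FiniteIndex := inferInstance
  set N' := N.normalCore with hN'
  let φ : Γ →* Γ ⧸ N' := QuotientGroup.mk' N'
  let Z : Subgroup (Γ ⧸ N') := (Subgroup.center Γ).map φ
  have hcomm : IsMulCommutative Z := inferInstance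
  have hfin : Finite (Γ ⧸ N') := inferInstance
  have hfinZ : Finite Z := inferInstance
  let z' : Z := ⟨φ z, Subgroup.mem_map_of_mem φ z.2⟩
  have hz' : z' ≠ 1 := by
    intro h
    have h1 : φ z = 1 := congrArg Subtype.val h
    have h2 : (z : Γ) ∈ N' := by
      rw [← QuotientGroup.ker_mk' N']
      exact h1
    exact hz (Subgroup.normalCore_le N h2)
  obtain ⟨ι, _, n, hn, ⟨e⟩⟩ := CommGroup.equiv_prod_multiplicative_zmod_of_finite Z
  have h3 : e z' ≠ 1 := by
    intro h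
    exact hz' (e.injective (by rw [h, map_one]))
  obtain ⟨i, hi⟩ : ∃ i, e z' i ≠ 1 := by
    by_contra hcon
    push Not at hcon
    exact h3 (funext hcon)
  refine ⟨Z.comap φ, ?_, ?_, n i, by have := hn i; omega, ?_⟩
  · refine Subgroup.finiteIndex_of_le (H := N') ?_
    intro x hx
    rw [Subgroup.mem_comap]
    have : φ x = 1 := by
      have : x ∈ (QuotientGroup.mk' N').ker := by
        rw [QuotientGroup.ker_mk' N']; exact hx
      exact this
    rw [this]
    exact Z.one_mem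
  · intro x hx
    exact Subgroup.mem_map_of_mem φ hx
  · refine ⟨((Pi.evalMonoidHom (fun i => Multiplicative (ZMod (n i))) i).comp
      e.toMonoidHom).comp (φ.subgroupComap Z), ?_⟩
    exact hi

theorem Inv_ext_of_basis {R : ℕ} {c : Fin R → C} {A : C → Fin R → ℤ} {O : Type w} [CommRing O]
    (h1 : ∀ f ∈ Inv (⊤ : Subgroup Γ) C O, ∀ x, f x = ∑ i, ((A x i : ℤ) : O) * f (c i))
    {f g : C →+ O} (hf : f ∈ Inv (⊤ : Subgroup Γ) C O) (hg : g ∈ Inv (⊤ : Subgroup Γ) C O)
    (h : ∀ i, f (c i) = g (c i)) : f = g := by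
  ext x
  rw [h1 f hf x, h1 g hg x]
  exact Finset.sum_congr rfl fun i _ => by rw [h i]

theorem finite_of_le_Inv [Module.Finite (MonoidAlgebra ℤ Γ) C] (H : Subgroup Γ)
    [H.FiniteIndex] (O : Type) [CommRing O] [IsNoetherianRing O] (E : Submodule O (C →+ O))
    (hE : E ≤ Inv H C O) : Module.Finite O E := by
  obtain ⟨m, c, hc⟩ := exists_determining (C := C) H
  let φ : E →ₗ[O] (Fin m → O) :=
    { toFun := fun f i => f.1 (c i)
      map_add' := fun f g => rfl
      map_smul' := fun s f => rfl }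
  refine Module.Finite.of_injective φ ?_
  intro f g hfg
  apply Subtype.ext
  have h0 : f.1 - g.1 = 0 := by
    refine hc O (f.1 - g.1) (hE (E.sub_mem f.2 g.2)) fun i => ?_
    rw [AddMonoidHom.sub_apply, sub_eq_zero]
    exact congrFun hfg i
  exact sub_eq_zero.1 h0

variable {G : GrRes Γ C} {r : ℕ} {a : Fin r → Subgroup.center Γ} (S : DSys G a)

/-- The integral version: if the complex at the point `β` of `(𝓞 L)^r` has a class of infinite
order, then `β = 0`. -/
theorem integral_point [Module.Finite (MonoidAlgebra ℤ Γ) C]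
    [Module.Projective (MonoidAlgebra ℤ Γ) C]
    (ha : ∀ m : Fin r → ℤ, ∏ j, a j ^ m j = 1 → m = 0)
    (hres : ∀ z : Subgroup.center Γ, z ≠ 1 → ∃ N : Subgroup Γ, N.FiniteIndex ∧ (z : Γ) ∉ N)
    (L : Type) [Field L] [NumberField L] (β : Fin r → 𝓞 L) (f : C →+ 𝓞 L)
    (hf : f ∈ Inv (⊤ : Subgroup Γ) C (𝓞 L)) (hDf : S.D β f = 0)
    (hfn : ∀ c : ℤ, c ≠ 0 → ∀ g ∈ Inv (⊤ : Subgroup Γ) C (𝓞 L), S.D β g ≠ (c : 𝓞 L) • f) :
    β = 0 := by
  classical
  by_contra hβ
  -- an integral coordinate functional which does not kill `β`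
  obtain ⟨j₀, hj₀⟩ : ∃ j, β j ≠ 0 := by
    by_contra hcon
    push Not at hcon
    exact hβ (funext hcon)
  obtain ⟨i₀, hi₀⟩ : ∃ i, (RingOfIntegers.basis L).coord i (β j₀) ≠ 0 := by
    by_contra hcon
    push Not at hcon
    apply hj₀
    apply (RingOfIntegers.basis L).repr.injective
    ext i
    simpa using hcon i
  let τ : 𝓞 L →ₗ[ℤ] ℤ := (RingOfIntegers.basis L).coord i₀
  let b : Fin r → ℤ := fun j => τ (β j)
  let z : Subgroup.center Γ := ∏ j, a j ^ b j
  have hz : z ≠ 1 := by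
    intro h
    have := congrFun (ha b h) j₀
    exact hi₀ this
  obtain ⟨N, hN, hzN⟩ := hres z hz
  obtain ⟨H, hHfi, hH, q, hq, χ, hχ⟩ := exists_character z N hN hzN
  -- integer lifts
  have hl : ∀ j, ∃ l : ℤ, χ ⟨(a j : Γ), hH (a j).2⟩ = Multiplicative.ofAdd ((l : ℤ) : ZMod q) := by
    intro j
    obtain ⟨l, hl⟩ := ZMod.intCast_surjective (Multiplicative.toAdd (χ ⟨(a j : Γ), hH (a j).2⟩))
    exact ⟨l, by rw [hl]; rfl⟩
  choose l hl using hl
  -- the value of `χ` on `z`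
  have hχz : χ ⟨(z : Γ), hH z.2⟩ = Multiplicative.ofAdd ((∑ j, l j * b j : ℤ) : ZMod q) := by
    let ψ : Subgroup.center Γ →* Multiplicative (ZMod q) := χ.comp (Subgroup.inclusion hH)
    have h1 : χ ⟨(z : Γ), hH z.2⟩ = ψ z := rfl
    have h2 : ∀ j, ψ (a j) = Multiplicative.ofAdd ((l j : ℤ) : ZMod q) := hl
    rw [h1, map_prod]
    simp only [map_zpow, h2]
    rw [Int.cast_sum, ofAdd_sum]
    refine Finset.prod_congr rfl fun j _ => ?_
    rw [← ofAdd_zsmul]
    congr 1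
    rw [zsmul_eq_mul]
    push_cast
    ring
  -- divisibility on homology
  have hq0 : ((q : ℕ) : 𝓞 L) ≠ 0 := by exact_mod_cast hq.ne'
  let E₁ : Submodule (𝓞 L) (C →+ 𝓞 L) := Inv H C (𝓞 L) ⊓ LinearMap.ker (S.D β)
  let E₀ : Submodule (𝓞 L) (C →+ 𝓞 L) := (Inv H C (𝓞 L)).map (S.D β)
  have hE : E₀ ≤ E₁ := by
    rintro _ ⟨g, hg, rfl⟩
    exact ⟨S.D_mem β hg, S.D_D (fun j => hH (a j).2) β hg⟩
  have hfin : Module.Finite (𝓞 L) E₁ := finite_of_le_Inv H (𝓞 L) E₁ inf_le_left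
  have hdvd : ((q : ℤ) : 𝓞 L) ∣ ∑ j, (l j : 𝓞 L) * β j := by
    refine dvd_of_smul L (C →+ 𝓞 L) E₁ E₀ hfin hE f
      ⟨Inv_mono (le_top : H ≤ ⊤) hf, hDf⟩ ?_ _ (q : ℤ) (by exact_mod_cast hq.ne') ?_
    · rintro c hc ⟨g, hg, hgf⟩
      have hcf : (c : 𝓞 L) • f ∈ Inv (⊤ : Subgroup Γ) C (𝓞 L) := Submodule.smul_mem _ _ hf
      obtain ⟨g', hg', hg'f⟩ := transfer S H β ((c : 𝓞 L) • f) g hcf hg hgf
      refine hfn ((H.index : ℤ) * c) (mul_ne_zero ?_ hc) g' hg' ?_
      · exact_mod_cast Subgroup.FiniteIndex.index_ne_zero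
      · rw [hg'f, smul_smul]
        push_cast
        rfl
    · rintro n ⟨hn1, hn2⟩
      obtain ⟨g, hg, g', hg', hDg', heq⟩ := divisibility S H (fun j => hH (a j).2) q hq χ l hl
        (fun y hy => by
          rcases mul_eq_zero.1 hy with h | h
          · exact absurd h hq0
          · exact h) β n hn1 hn2
      exact ⟨S.D β g, ⟨g, hg, rfl⟩, g', ⟨hg', hDg'⟩, by rw [heq]; push_cast; rfl⟩
  obtain ⟨y, hy⟩ := hdvd
  have hτ : (∑ j, l j * b j : ℤ) = q * τ y := by
    have h1 : τ (∑ j, (l j : 𝓞 L) * β j) = ∑ j, l j * b j := by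
      rw [map_sum]
      refine Finset.sum_congr rfl fun j _ => ?_
      rw [← zsmul_eq_mul, map_zsmul, zsmul_eq_mul]
      simp [b]
    rw [← h1, hy, ← zsmul_eq_mul, map_zsmul, smul_eq_mul]
  apply hχ
  rw [hχz, hτ]
  simp

/-- Exactness over a number field at all nonzero points. -/
theorem exact_of_residual [Module.Finite (MonoidAlgebra ℤ Γ) C]
    [Module.Projective (MonoidAlgebra ℤ Γ) C]
    (ha : ∀ m : Fin r → ℤ, ∏ j, a j ^ m j = 1 → m = 0)
    (hres : ∀ z : Subgroup.center Γ, z ≠ 1 → ∃ N : Subgroup Γ, N.FiniteIndex ∧ (z : Γ) ∉ N)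
    (L : Type) [Field L] [NumberField L] (β : Fin r → L) (hβ : β ≠ 0) :
    ∀ f ∈ Inv (⊤ : Subgroup Γ) C L, S.D β f = 0 →
      ∃ g ∈ Inv (⊤ : Subgroup Γ) C L, S.D β g = f := by
  classical
  obtain ⟨R, c, A, hA1, hA2⟩ := exists_basis (Γ := Γ) (C := C)
  -- clear the denominators of `β`
  obtain ⟨n, hn, hint⟩ := exists_integral_multiples ℤ ℚ (Finset.univ.image β)
  have hnL : ((n : ℤ) : L) ≠ 0 := by exact_mod_cast hn
  have hβ' : ∀ j, ∃ y : 𝓞 L, algebraMap (𝓞 L) L y = (n : L) * β j := by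
    intro j
    have h1 : IsIntegral ℤ (n • β j) := hint _ (Finset.mem_image_of_mem _ (Finset.mem_univ j))
    exact ⟨⟨n • β j, h1⟩, by simp [zsmul_eq_mul]⟩
  choose β' hβ' using hβ'
  refine exact_scale S ⊤ β (n : L) hnL ?_
  have hβfun : (fun j => (n : L) * β j) = fun j => algebraMap (𝓞 L) L (β' j) := by
    funext j; rw [hβ']
  rw [hβfun]
  intro f₁ hf₁ hDf₁
  by_contra hcon
  push Not at hcon
  -- clear the denominators of `f₁`
  obtain ⟨e, he, heint⟩ := exists_integral_multiples ℤ ℚ (Finset.univ.image fun i => f₁ (c i))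
  have heL : ((e : ℤ) : L) ≠ 0 := by exact_mod_cast he
  have hv : ∀ i, ∃ y : 𝓞 L, algebraMap (𝓞 L) L y = (e : L) * f₁ (c i) := by
    intro i
    have h1 : IsIntegral ℤ (e • f₁ (c i)) :=
      heint _ (Finset.mem_image_of_mem (fun i => f₁ (c i)) (Finset.mem_univ i))
    exact ⟨⟨e • f₁ (c i), h1⟩, by simp [zsmul_eq_mul]⟩
  choose v hv using hv
  obtain ⟨f, hf, hfv⟩ := hA2 (𝓞 L) v
  let σ : 𝓞 L →+* L := algebraMap (𝓞 L) L
  have hσ : Function.Injective σ := RingOfIntegers.coe_injective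
  have hσf : σ.toAddMonoidHom.comp f = (e : L) • f₁ := by
    refine Inv_ext_of_basis (hA1 L) (DSys.map_mem σ hf) (Submodule.smul_mem _ _ hf₁) fun i => ?_
    simp only [AddMonoidHom.comp_apply, RingHom.toAddMonoidHom_eq_coe, AddMonoidHom.coe_coe,
      AddMonoidHom.smul_apply, smul_eq_mul, hfv]
    exact hv i
  have hDf : S.D β' f = 0 := by
    have h1 : σ.toAddMonoidHom.comp (S.D β' f) = 0 := by
      rw [← S.D_map σ β' f, hσf, map_smul, hDf₁, smul_zero]
    refine AddMonoidHom.ext fun x => ?_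
    have h2 := DFunLike.congr_fun h1 x
    apply hσ
    rw [AddMonoidHom.zero_apply, map_zero]
    exact h2
  refine hβ ?_
  have h0 : β' = 0 := by
    refine integral_point S ha hres L β' f hf hDf ?_
    intro m hm g hg hgf
    have hmL : ((m : ℤ) : L) ≠ 0 := by exact_mod_cast hm
    refine hcon (((m : L) * e)⁻¹ • σ.toAddMonoidHom.comp g)
      (Submodule.smul_mem _ _ (DSys.map_mem σ hg)) ?_
    rw [map_smul, S.D_map σ β' g, hgf]
    have h3 : σ.toAddMonoidHom.comp ((m : 𝓞 L) • f) = (m : L) • ((e : L) • f₁) := by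
      rw [← hσf]
      ext x
      simp
    rw [h3, smul_smul, smul_smul]
    have h6 : ((m : L) * e)⁻¹ * m * e = 1 := by
      rw [mul_assoc, inv_mul_cancel₀ (mul_ne_zero hmL heL)]
    rw [h6, one_smul]
  funext j
  have h4 := hβ' j
  rw [h0] at h4
  simp only [Pi.zero_apply, map_zero] at h4
  rcases mul_eq_zero.1 h4.symm with h5 | h5
  · exact absurd h5 hnL
  · exact h5

end Pool.Agent.Helper27.Mess
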